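import Pool.Agent.N929.EG.SzStm

/-!
# The sum of the squared distances of the vertices of a walk
-/

set_option autoImplicit false

namespace Pool.Agent.N342.EG

open Pool.Agent.N929.EG

variable {Ver : Type}

lemma sm_nil {V : Type} [AddCommGroup V] (f : Ver → V) : sm f [] = 0 := rfl

lemma sm_cons {V : Type} [AddCommGroup V] (f : Ver → V) (a : Ver) (w : List Ver) :
    sm f (a :: w) = f a + sm f w := by
  unfold sm
  rw [List.map_cons, List.sum_cons]

lemma sm_congr {V : Type} [AddCommGroup V] {f g : Ver → V} (h : ∀ x, f x = g x) (w : List Ver) :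
    sm f w = sm g w := by
  have : f = g := funext h
  rw [this]

lemma nsq (z : ℂ) : ‖z‖ ^ 2 = z.re ^ 2 + z.im ^ 2 := by
  rw [Complex.sq_norm, Complex.normSq_apply]
  ring

/-- the sum over the second vertex -/
lemma inner_sum (a : ℂ) (u : Ver → ℂ) (w : List Ver) :
    sm (fun y => ‖a - u y‖ ^ 2) w = (w.length : ℝ) * ‖a‖ ^ 2 + sm (fun y => ‖u y‖ ^ 2) w -
      2 * (a.re * (sm u w).re + a.im * (sm u w).im) := by
  induction w with
  | nil => simp [sm_nil]
  | cons b w ih =>
    rw [sm_cons, sm_cons, sm_cons, ih, List.length_cons, Complex.add_re, Complex.add_im]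
    push_cast
    rw [nsq (a - u b), nsq a, nsq (u b), Complex.sub_re, Complex.sub_im]
    ring

/-- the sum over the first vertex -/
lemma outer_sum (N S p q : ℝ) (u : Ver → ℂ) (w : List Ver) :
    sm (fun x => N * ‖u x‖ ^ 2 + S - 2 * ((u x).re * p + (u x).im * q)) w =
      N * sm (fun x => ‖u x‖ ^ 2) w + (w.length : ℝ) * S -
        2 * ((sm u w).re * p + (sm u w).im * q) := by
  induction w with
  | nil => simp [sm_nil]
  | cons b w ih =>
    rw [sm_cons, sm_cons, sm_cons, ih, List.length_cons, Complex.add_re, Complex.add_im]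
    push_cast
    ring

theorem tti : S_TTI := by
  intro Ver pt w c
  obtain ⟨u, hu⟩ : ∃ u : Ver → ℂ, u = fun x => pt x - c := ⟨_, rfl⟩
  have h1 : TT pt w = sm (fun x => sm (fun y => ‖u x - u y‖ ^ 2) w) w := by
    unfold TT
    refine sm_congr (fun x => sm_congr (fun y => ?_) w) w
    rw [hu]
    congr 2
    ring
  rw [h1, ← hu]
  have h2 : sm (fun x => sm (fun y => ‖u x - u y‖ ^ 2) w) w =
      sm (fun x => (w.length : ℝ) * ‖u x‖ ^ 2 + sm (fun y => ‖u y‖ ^ 2) w -
        2 * ((u x).re * (sm u w).re + (u x).im * (sm u w).im)) w :=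
    sm_congr (fun x => inner_sum (u x) u w) w
  rw [h2, outer_sum, nsq (sm u w)]
  have h3 : sm (fun x => ‖u x‖ ^ 2) w = sm (fun x => ‖pt x - c‖ ^ 2) w := by rw [hu]
  rw [h3]
  ring

/-- the distance to the first vertex -/
lemma dist_first {A : Ver → Ver → Prop} {pt : Ver → ℂ} (h1 : ∀ x y, A x y → ‖pt x - pt y‖ ≤ 1)
    (l : List Ver) : ∀ a, (a :: l).IsChain A → ∀ y ∈ a :: l, ‖pt a - pt y‖ ≤ l.length := by
  induction l with
  | nil =>
    intro a _ y hy
    rw [List.mem_singleton] at hy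
    rw [hy]
    simp
  | cons b l ih =>
    intro a hc y hy
    rw [List.isChain_cons_cons] at hc
    rcases List.mem_cons.1 hy with h | h
    · rw [h, sub_self, norm_zero]
      exact Nat.cast_nonneg _
    · have h2 := ih b hc.2 y h
      have h3 := h1 a b hc.1
      have h4 : pt a - pt y = (pt a - pt b) + (pt b - pt y) := by ring
      rw [h4, List.length_cons]
      push_cast
      have := norm_add_le (pt a - pt b) (pt b - pt y)
      linarith

/-- the distance of two vertices -/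
lemma dist_all {A : Ver → Ver → Prop} {pt : Ver → ℂ} (h1 : ∀ x y, A x y → ‖pt x - pt y‖ ≤ 1)
    (w : List Ver) (hc : w.IsChain A) : ∀ x ∈ w, ∀ y ∈ w, ‖pt x - pt y‖ ≤ (w.length : ℝ) - 1 := by
  induction w with
  | nil =>
    intro x hx
    exact absurd hx (by simp)
  | cons a l ih =>
    intro x hx y hy
    rw [List.length_cons]
    push_cast
    rw [add_sub_cancel_right]
    rcases List.mem_cons.1 hx with h | h
    · rw [h]
      exact dist_first h1 l a hc y hy
    · rcases List.mem_cons.1 hy with h' | h'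
      · rw [h', norm_sub_rev]
        exact dist_first h1 l a hc x hx
      · have := ih hc.of_cons x h y h'
        linarith

lemma sm_le {f : Ver → ℝ} {b : ℝ} (w : List Ver) (h : ∀ x ∈ w, f x ≤ b) :
    sm f w ≤ (w.length : ℝ) * b := by
  induction w with
  | nil => simp [sm_nil]
  | cons a l ih =>
    rw [sm_cons, List.length_cons]
    push_cast
    have h1 := h a List.mem_cons_self
    have h2 := ih fun x hx => h x (List.mem_cons_of_mem _ hx)
    linarith

lemma le_sm {f : Ver → ℝ} {b : ℝ} (w : List Ver) (h : ∀ x ∈ w, b ≤ f x) :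
    (w.length : ℝ) * b ≤ sm f w := by
  induction w with
  | nil => simp [sm_nil]
  | cons a l ih =>
    rw [sm_cons, List.length_cons]
    push_cast
    have h1 := h a List.mem_cons_self
    have h2 := ih fun x hx => h x (List.mem_cons_of_mem _ hx)
    linarith

/-- most vertices are at distance at least `δ` from `x` -/
lemma far {pt : Ver → ℂ} {δ : ℝ} (hδ : 0 < δ) (hsep : ∀ x y, x ≠ y → δ ≤ ‖pt x - pt y‖) (x : Ver)
    (w : List Ver) (hw : w.Nodup) :
    ((w.length : ℝ) - 1) * δ ^ 2 ≤ sm (fun y => ‖pt x - pt y‖ ^ 2) w ∧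
      (x ∉ w → (w.length : ℝ) * δ ^ 2 ≤ sm (fun y => ‖pt x - pt y‖ ^ 2) w) := by
  induction w with
  | nil =>
    simp only [sm_nil, List.length_nil, Nat.cast_zero, zero_mul]
    refine ⟨?_, fun _ => le_rfl⟩
    nlinarith [sq_nonneg δ]
  | cons a l ih =>
    rw [List.nodup_cons] at hw
    obtain ⟨i1, i2⟩ := ih hw.2
    rw [sm_cons, List.length_cons]
    push_cast
    by_cases hxa : x = a
    · have h1 := i2 (by rw [hxa]; exact hw.1)
      refine ⟨?_, fun h => absurd (by rw [hxa]; exact List.mem_cons_self) h⟩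
      have h2 : 0 ≤ ‖pt x - pt a‖ ^ 2 := by positivity
      nlinarith
    · have h2 : δ ^ 2 ≤ ‖pt x - pt a‖ ^ 2 := pow_le_pow_left₀ hδ.le (hsep x a hxa) 2
      refine ⟨by nlinarith, fun h => ?_⟩
      have h1 := i2 fun hx => h (List.mem_cons_of_mem _ hx)
      nlinarith

theorem ttl : S_TTL := by
  intro Ver A o pt δ hδ hsep hA n w hn hlen hw
  obtain ⟨-, hnd, hch⟩ := hw
  have hl : (w.length : ℝ) = (n : ℝ) + 1 := by
    rw [hlen]
    push_cast
    ring
  have hn1 : (1 : ℝ) ≤ n := by exact_mod_cast hn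
  have h3 : ∀ x ∈ w, ∀ y ∈ w, ‖pt x - pt y‖ ≤ n := by
    intro x hx y hy
    have := dist_all hA w hch x hx y hy
    rw [hl] at this
    linarith
  refine ⟨?_, ?_, h3⟩
  · have h4 : (w.length : ℝ) * (((n : ℝ) + 1 - 1) * δ ^ 2) ≤ TT pt w := by
      unfold TT
      refine le_sm w fun x _ => ?_
      have := (far hδ hsep x w hnd).1
      rw [hl] at this
      exact this
    refine le_trans ?_ h4
    rw [hl]
    have h5 : 0 < δ ^ 2 := by positivity
    have h6 : ((n : ℝ) + 1) ^ 2 / 2 ≤ ((n : ℝ) + 1) * n := by nlinarith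
    calc δ ^ 2 / 2 * ((n : ℝ) + 1) ^ 2 = ((n : ℝ) + 1) ^ 2 / 2 * δ ^ 2 := by ring
      _ ≤ (((n : ℝ) + 1) * n) * δ ^ 2 := mul_le_mul_of_nonneg_right h6 h5.le
      _ = ((n : ℝ) + 1) * (((n : ℝ) + 1 - 1) * δ ^ 2) := by ring
  · have h4 : TT pt w ≤ (w.length : ℝ) * ((w.length : ℝ) * (n : ℝ) ^ 2) := by
      unfold TT
      refine sm_le w fun x hx => ?_
      refine sm_le w fun y hy => ?_
      exact pow_le_pow_left₀ (norm_nonneg _) (h3 x hx y hy) 2
    refine h4.trans ?_
    rw [hl]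
    have h5 : (n : ℝ) ^ 2 ≤ ((n : ℝ) + 1) ^ 2 := by nlinarith
    calc ((n : ℝ) + 1) * (((n : ℝ) + 1) * (n : ℝ) ^ 2) = ((n : ℝ) + 1) ^ 2 * (n : ℝ) ^ 2 := by ring
      _ ≤ ((n : ℝ) + 1) ^ 2 * ((n : ℝ) + 1) ^ 2 := mul_le_mul_of_nonneg_left h5 (by positivity)
      _ = ((n : ℝ) + 1) ^ 4 := by ring

end Pool.Agent.N342.EG
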